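import Pool.Agent.H68.GHK.Targets
import Pool.Agent.H23.GHK.WTS

/-!
Board ghk (MP_52e316_nt), row LTH: the fourth moment of the Dirichlet polynomials, with the weights.
-/

set_option autoImplicit false

namespace Pool.Agent.H22.GHK

open MeasureTheory Pool.Agent.H34.GM Pool.Agent.H34.GZ Pool.Agent.H34.GU Pool.Agent.H34.GA
  Pool.Agent.H68.GHY Pool.Agent.H34.GHY Pool.Agent.H68.GHK

theorem pf_LTH (hLSH : T_LSH) (hGAL : T_GAL) (hSQD : T_SQD) : T_LTH := by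
  intro m hm r ε hr hε
  obtain ⟨c, C, K, hc, hC, H⟩ := hLSH m hm r ε hr hε
  obtain ⟨C', hC', HW⟩ := Pool.Agent.H23.GHK.lt4_w hGAL hSQD m
  refine ⟨c, C' * C, K, hc, mul_pos hC' hC, ?_⟩
  intro N _ T D hS ι _ _ F lam P hF hO δ hδ hδ2 hP
  exact HW ε C K ι (fun i => ENNReal.ofReal (Hn r D (F i))⁻¹) lam N δ hδ hδ2
    (H N T D hS ι F lam P hF hO δ hδ hδ2 hP)

end Pool.Agent.H22.GHK
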